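import Mathlib

/-! MP_f298ee_co: choice of the parameters (J16). -/

namespace Pool.Agent.TH911.FR

theorem z_ineq (z : ℕ) (hz : 20 ≤ z) : 136 * z ^ 2 + 4 * z ≤ 2 ^ (z - 1) := by
  induction z, hz using Nat.le_induction with
  | base => norm_num
  | succ z hz ih =>
    have h1 : z + 1 - 1 = (z - 1) + 1 := by omega
    have h2 : 2 ^ (z - 1 + 1) = 2 * 2 ^ (z - 1) := by ring
    rw [h1, h2]
    nlinarith

theorem params (G E : ℕ) : ∃ R0 : ℕ, ∀ R ≥ R0, ∀ l ≥ 3, ∃ t σ s0 q K κ : ℕ,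
    κ = 6 * (s0 + 2) ∧ 1 ≤ t ∧ 1 ≤ s0 ∧ 0 < K ∧
    2 * κ * R < l ^ t ∧
    32 * κ * t * R ^ 2 ≤ l ^ σ ∧
    32 * κ * t ^ 2 * (G * (σ + 1) ^ 2) * E ≤ R ∧
    256 * κ ^ 2 * t ^ 3 * (G * (σ + 1) ^ 2) * E ≤ l ^ s0 ∧
    4 * κ * (G * (s0 + q + 1) ^ 2) * l ^ q * E ≤ R ∧
    16 * κ * (G * (σ + 1) ^ 2) * E ≤ K ∧
    ((s0 = 1 ∧ q = 0 ∧ 4 * κ * t * K * E * (Nat.log 2 R + 1) ≤ l) ∨
      4 * κ * t * K * E * s0 ^ 2 * l ^ (s0 - 1) ≤ 2 ^ (q + 1)) := by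
  set M : ℕ := 10 ^ 8 * ((G + 1) * (E + 1)) + 2 ^ 20 with hM
  refine ⟨2 ^ M, fun R hR l hl => ?_⟩
  set Y := Nat.log 2 R + 1 with hY
  have hR0 : R ≠ 0 := by
    have : 0 < 2 ^ M := by positivity
    omega
  have hMY : M + 1 ≤ Y := by
    rw [hY]
    have : M ≤ Nat.log 2 R := Nat.le_log_of_pow_le (by norm_num) hR
    omega
  have hRlow : 2 ^ (Y - 1) ≤ R := by
    have : Y - 1 = Nat.log 2 R := by omega
    rw [this]
    exact Nat.pow_log_le_self 2 hR0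
  have hRup : R < 2 ^ Y := by
    rw [hY]
    exact Nat.lt_pow_succ_log_self (by norm_num) R
  have hYbig : 2 ^ 20 < Y := by omega
  have hYGE : 10 ^ 8 * ((G + 1) * (E + 1)) ≤ Y := by omega
  have hGE : 10 ^ 8 * (G * E) ≤ Y := by
    have : G * E ≤ (G + 1) * (E + 1) := by nlinarith
    omega
  have hEY : 10 ^ 8 * E ≤ Y := by
    have : E ≤ (G + 1) * (E + 1) := by nlinarith
    omega
  have hGY : 10 ^ 8 * G ≤ Y := by
    have : G ≤ (G + 1) * (E + 1) := by nlinarith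
    omega
  have hk : ∀ k, k ≤ 10 ^ 8 → k * (G * E) ≤ Y := fun k hk => (Nat.mul_le_mul_right _ hk).trans hGE
  have hY1 : 1 ≤ Y := by omega
  set z := Nat.clog 2 Y with hz
  have hYz : Y ≤ 2 ^ z := Nat.le_pow_clog (by norm_num) Y
  have hzY : 2 ^ (z - 1) < Y := by
    have := Nat.pow_pred_clog_lt_self (b := 2) (by norm_num) (x := Y) (by omega)
    simpa [hz, Nat.pred_eq_sub_one] using this
  have hz20 : 20 ≤ z := by
    by_contra h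
    have h1 : z ≤ 20 := by omega
    have h2 : 2 ^ z ≤ 2 ^ 20 := Nat.pow_le_pow_right (by norm_num) h1
    omega
  have hzleY : z ≤ Y := by
    have : z - 1 < 2 ^ (z - 1) := Nat.lt_two_pow_self
    omega
  have hzin : 136 * z ^ 2 + 4 * z ≤ Y - 1 := by
    have := z_ineq z hz20
    omega
  have hY8 : Y ^ 8 ≤ 2 ^ (Y - 1) := by
    calc Y ^ 8 ≤ (2 ^ z) ^ 8 := Nat.pow_le_pow_left hYz 8
      _ = 2 ^ (z * 8) := by rw [← pow_mul]
      _ ≤ 2 ^ (Y - 1) := by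
        apply Nat.pow_le_pow_right (by norm_num)
        nlinarith
  have hY82 : Y ^ 8 ≤ 2 ^ Y := hY8.trans (Nat.pow_le_pow_right (by norm_num) (by omega))
  -- the choice
  set s0 := Nat.clog l (Y ^ 8) with hs0
  have hl1 : 1 < l := by omega
  have hY8one : 1 < Y ^ 8 := Nat.one_lt_pow (by norm_num) (by omega)
  have hs01 : 1 ≤ s0 := Nat.clog_pos hl1 (by omega)
  have hls0 : Y ^ 8 ≤ l ^ s0 := Nat.le_pow_clog hl1 _
  have hls0' : l ^ (s0 - 1) < Y ^ 8 := by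
    have := Nat.pow_pred_clog_lt_self (b := l) hl1 (x := Y ^ 8) hY8one
    simpa [hs0, Nat.pred_eq_sub_one] using this
  have hs0Y : s0 ≤ Y := by
    have h1 : 2 ^ (s0 - 1) < 2 ^ (Y - 1) := by
      calc 2 ^ (s0 - 1) ≤ l ^ (s0 - 1) := Nat.pow_le_pow_left (by omega) _
        _ < Y ^ 8 := hls0'
        _ ≤ 2 ^ (Y - 1) := hY8
    have h2 := (Nat.pow_lt_pow_iff_right (by norm_num : 1 < 2)).mp h1
    omega
  have hκ : 6 * (s0 + 2) ≤ 18 * Y := by omega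
  have hl2Y : 2 ^ (2 * Y) ≤ l ^ (2 * Y) := Nat.pow_le_pow_left (by omega) _
  have hl4Y : 2 ^ (4 * Y) ≤ l ^ (4 * Y) := Nat.pow_le_pow_left (by omega) _
  have h5Y : 4 * Y + 1 ≤ 5 * Y := by omega
  have hpowle : ∀ a, a ≤ 8 → Y ^ a ≤ Y ^ 8 := fun a ha => Nat.pow_le_pow_right hY1 ha
  have c1 : 2 * (6 * (s0 + 2)) * R < l ^ (2 * Y) := by
    calc 2 * (6 * (s0 + 2)) * R ≤ 2 * (18 * Y) * R := by gcongr
      _ = (36 * Y) * R := by ring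
      _ ≤ (Y * Y) * R := by gcongr; omega
      _ = Y ^ 2 * R := by ring
      _ ≤ Y ^ 8 * R := Nat.mul_le_mul_right _ (hpowle 2 (by norm_num))
      _ ≤ 2 ^ Y * R := Nat.mul_le_mul_right _ hY82
      _ < 2 ^ Y * 2 ^ Y := Nat.mul_lt_mul_of_pos_left hRup (by positivity)
      _ = 2 ^ (2 * Y) := by rw [← pow_add]; congr 1; ring
      _ ≤ l ^ (2 * Y) := hl2Y
  have c2 : 32 * (6 * (s0 + 2)) * (2 * Y) * R ^ 2 ≤ l ^ (4 * Y) := by
    calc 32 * (6 * (s0 + 2)) * (2 * Y) * R ^ 2 ≤ 32 * (18 * Y) * (2 * Y) * R ^ 2 := by gcongr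
      _ = (1152 * Y ^ 2) * R ^ 2 := by ring
      _ ≤ (Y * Y ^ 2) * R ^ 2 := by gcongr; omega
      _ = Y ^ 3 * R ^ 2 := by ring
      _ ≤ Y ^ 8 * R ^ 2 := Nat.mul_le_mul_right _ (hpowle 3 (by norm_num))
      _ ≤ 2 ^ Y * (2 ^ Y) ^ 2 := by gcongr
      _ = 2 ^ (3 * Y) := by rw [← pow_mul, ← pow_add]; congr 1; ring
      _ ≤ 2 ^ (4 * Y) := Nat.pow_le_pow_right (by norm_num) (by omega)
      _ ≤ l ^ (4 * Y) := hl4Y
  have c3 : 32 * (6 * (s0 + 2)) * (2 * Y) ^ 2 * (G * (4 * Y + 1) ^ 2) * E ≤ R := by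
    calc 32 * (6 * (s0 + 2)) * (2 * Y) ^ 2 * (G * (4 * Y + 1) ^ 2) * E
        ≤ 32 * (18 * Y) * (2 * Y) ^ 2 * (G * (5 * Y) ^ 2) * E := by gcongr
      _ = (57600 * (G * E)) * Y ^ 5 := by ring
      _ ≤ Y * Y ^ 5 := Nat.mul_le_mul_right _ (hk _ (by norm_num))
      _ = Y ^ 6 := by ring
      _ ≤ Y ^ 8 := hpowle 6 (by norm_num)
      _ ≤ 2 ^ (Y - 1) := hY8
      _ ≤ R := hRlow
  have c4 : 256 * (6 * (s0 + 2)) ^ 2 * (2 * Y) ^ 3 * (G * (4 * Y + 1) ^ 2) * E ≤ l ^ s0 := by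
    calc 256 * (6 * (s0 + 2)) ^ 2 * (2 * Y) ^ 3 * (G * (4 * Y + 1) ^ 2) * E
        ≤ 256 * (18 * Y) ^ 2 * (2 * Y) ^ 3 * (G * (5 * Y) ^ 2) * E := by gcongr
      _ = (16588800 * (G * E)) * Y ^ 7 := by ring
      _ ≤ Y * Y ^ 7 := Nat.mul_le_mul_right _ (hk _ (by norm_num))
      _ = Y ^ 8 := by ring
      _ ≤ l ^ s0 := hls0
  have c6 : 16 * (6 * (s0 + 2)) * (G * (4 * Y + 1) ^ 2) * E ≤ Y ^ 4 := by
    calc 16 * (6 * (s0 + 2)) * (G * (4 * Y + 1) ^ 2) * E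
        ≤ 16 * (18 * Y) * (G * (5 * Y) ^ 2) * E := by gcongr
      _ = (7200 * (G * E)) * Y ^ 3 := by ring
      _ ≤ Y * Y ^ 3 := Nat.mul_le_mul_right _ (hk _ (by norm_num))
      _ = Y ^ 4 := by ring
  rcases Nat.lt_or_ge l (Y ^ 8) with hlY | hlY
  · -- small regime
    refine ⟨2 * Y, 4 * Y, s0, 17 * z, Y ^ 4, 6 * (s0 + 2), rfl, by omega, hs01, by positivity,
      c1, c2, c3, c4, ?_, c6, Or.inr ?_⟩
    · calc 4 * (6 * (s0 + 2)) * (G * (s0 + 17 * z + 1) ^ 2) * l ^ (17 * z) * E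
          ≤ 4 * (18 * Y) * (G * (19 * Y) ^ 2) * (Y ^ 8) ^ (17 * z) * E := by
            gcongr
            omega
        _ = ((25992 * (G * E)) * Y ^ 3) * (Y ^ 8) ^ (17 * z) := by ring
        _ ≤ (Y * Y ^ 3) * (Y ^ 8) ^ (17 * z) :=
            Nat.mul_le_mul_right _ (Nat.mul_le_mul_right _ (hk _ (by norm_num)))
        _ = Y ^ 4 * Y ^ (8 * (17 * z)) := by rw [← pow_mul]; ring
        _ ≤ (2 ^ z) ^ 4 * (2 ^ z) ^ (8 * (17 * z)) := by gcongr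
        _ = 2 ^ (136 * z ^ 2 + 4 * z) := by
            rw [← pow_mul, ← pow_mul, ← pow_add]; congr 1; ring
        _ ≤ 2 ^ (Y - 1) := Nat.pow_le_pow_right (by norm_num) hzin
        _ ≤ R := hRlow
    · calc 4 * (6 * (s0 + 2)) * (2 * Y) * Y ^ 4 * E * s0 ^ 2 * l ^ (s0 - 1)
          ≤ 4 * (18 * Y) * (2 * Y) * Y ^ 4 * E * Y ^ 2 * Y ^ 8 := by gcongr
        _ = (144 * E) * Y ^ 16 := by ring
        _ ≤ Y * Y ^ 16 := Nat.mul_le_mul_right _ (by omega)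
        _ = Y ^ 17 := by ring
        _ ≤ (2 ^ z) ^ 17 := Nat.pow_le_pow_left hYz 17
        _ = 2 ^ (17 * z) := by rw [← pow_mul]; congr 1; ring
        _ ≤ 2 ^ (17 * z + 1) := Nat.pow_le_pow_right (by norm_num) (by omega)
  · -- large regime
    have hs0eq : s0 = 1 := by
      have h1 : s0 ≤ 1 := by
        rw [hs0]
        exact Nat.clog_le_of_le_pow (by simpa using hlY)
      omega
    refine ⟨2 * Y, 4 * Y, s0, 0, Y ^ 4, 6 * (s0 + 2), rfl, by omega, hs01, by positivity,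
      c1, c2, c3, c4, ?_, c6, Or.inl ⟨hs0eq, rfl, ?_⟩⟩
    · rw [hs0eq]
      calc 4 * (6 * (1 + 2)) * (G * (1 + 0 + 1) ^ 2) * l ^ 0 * E = 288 * (G * E) := by ring
        _ ≤ Y := hk _ (by norm_num)
        _ = Y ^ 1 := by ring
        _ ≤ Y ^ 8 := hpowle 1 (by norm_num)
        _ ≤ 2 ^ (Y - 1) := hY8
        _ ≤ R := hRlow
    · rw [hs0eq]
      calc 4 * (6 * (1 + 2)) * (2 * Y) * Y ^ 4 * E * Y = (144 * E) * Y ^ 6 := by ring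
        _ ≤ Y * Y ^ 6 := Nat.mul_le_mul_right _ (by omega)
        _ = Y ^ 7 := by ring
        _ ≤ Y ^ 8 := hpowle 7 (by norm_num)
        _ ≤ l := hlY

end Pool.Agent.TH911.FR
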