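import Pool.Agent.TH780.FR.Defs
import Pool.Agent.TH911.FR.Params

/-! MP_f298ee_co: J18, the final quantitative form, from the record lemma, the a priori bound,
the parameters and the core. -/

namespace Pool.Agent.TH911.FR

open Finset Pool.Agent.TH780.FR

/-- J18 modulo J8, J15, J17 -/
theorem main_bound_of
    (exists_record : ∀ {c : ℕ → ℕ → ℕ} {V : Finset ℕ} {l : ℕ}, 1 ≤ l → ∀ {R' : ℕ}, RB c V R' →
      ∃ R ≤ R', ∃ U ⊆ V, RB c U R ∧ Rec c U l R ∧ V.card * l ^ R ≤ U.card * l ^ R')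
    (ap_bound : ∃ G : ℕ, ∀ (c : ℕ → ℕ → ℕ) (V : Finset ℕ) (l R : ℕ) (lam : ℕ → ℕ → ℕ), 3 ≤ l →
      Lev c V l lam → RB c V R → V.card ≤ G * (R + 1) ^ 2 * l ^ R)
    (core : ∀ {c : ℕ → ℕ → ℕ} {V : Finset ℕ} {l R : ℕ} {lam : ℕ → ℕ → ℕ}, 3 ≤ l → Lev c V l lam →
      RB c V R → Rec c V l R → 2 ≤ R → ∀ {g : ℕ → ℕ},
      (∀ U ⊆ V, ∀ j, RB c U j → U.card ≤ g j * l ^ j) → Monotone g →
      ∀ {E t σ s0 q K κ : ℕ}, R * l ^ R ≤ E * V.card → 24 * κ ≤ R →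
      κ = 6 * (s0 + 2) → 1 ≤ t → 1 ≤ s0 → 0 < K →
      2 * κ * R < l ^ t →
      32 * κ * t * R ^ 2 ≤ l ^ σ →
      32 * κ * t ^ 2 * g σ * E ≤ R →
      256 * κ ^ 2 * t ^ 3 * g σ * E ≤ l ^ s0 →
      4 * κ * g (s0 + q) * l ^ q * E ≤ R →
      16 * κ * g σ * E ≤ K →
      ((s0 = 1 ∧ q = 0 ∧ 4 * κ * t * K * E * (Nat.log 2 R + 1) ≤ l) ∨
        4 * κ * t * K * E * s0 ^ 2 * l ^ (s0 - 1) ≤ 2 ^ (q + 1)) → False)
    (E : ℕ) : ∃ K0 : ℕ, ∀ R ≥ K0, ∀ l ≥ 3, ∀ (c : ℕ → ℕ → ℕ) (V : Finset ℕ)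
    (lam : ℕ → ℕ → ℕ), Lev c V l lam → RB c V R → E * V.card ≤ R * l ^ R := by
  obtain ⟨G', hG'⟩ := ap_bound
  set G := G' + 1 with hGdef
  have hG : ∀ (c : ℕ → ℕ → ℕ) (V : Finset ℕ) (l R : ℕ) (lam : ℕ → ℕ → ℕ), 3 ≤ l →
      Lev c V l lam → RB c V R → V.card ≤ G * (R + 1) ^ 2 * l ^ R := by
    intro c V l R lam hl hL hR
    refine (hG' c V l R lam hl hL hR).trans ?_
    gcongr
    omega
  obtain ⟨R0, hR0⟩ := params G E
  refine ⟨E * (G * (R0 + 3) ^ 2), fun R' hR' l hl c V lam hL hRB => ?_⟩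
  by_contra hcon
  push Not at hcon
  obtain ⟨R, hRR', U, hUV, hRBU, hRec, hcard⟩ := exists_record (l := l) (by omega) hRB
  have hlpos : ∀ k, 0 < l ^ k := fun k => pow_pos (by omega) k
  have hLU := hL.sub hUV
  -- `R' l^R < E |U|`
  have h1 : R' * l ^ R < E * U.card := by
    have h2 : (R' * l ^ R) * l ^ R' < (E * U.card) * l ^ R' := by
      calc (R' * l ^ R) * l ^ R' = (R' * l ^ R') * l ^ R := by ring
        _ < (E * V.card) * l ^ R := Nat.mul_lt_mul_of_pos_right hcon (hlpos R)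
        _ = E * (V.card * l ^ R) := by ring
        _ ≤ E * (U.card * l ^ R') := Nat.mul_le_mul_left _ hcard
        _ = (E * U.card) * l ^ R' := by ring
    exact lt_of_mul_lt_mul_right h2 (Nat.zero_le _)
  have hE : 0 < E := by
    rcases Nat.eq_zero_or_pos E with h | h
    · rw [h] at h1; omega
    · exact h
  have h3 : U.card ≤ G * (R + 1) ^ 2 * l ^ R := hG c U l R lam hl hLU hRBU
  have h4 : R' < E * (G * (R + 1) ^ 2) := by
    have h5 : R' * l ^ R < (E * (G * (R + 1) ^ 2)) * l ^ R := by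
      calc R' * l ^ R < E * U.card := h1
        _ ≤ E * (G * (R + 1) ^ 2 * l ^ R) := Nat.mul_le_mul_left _ h3
        _ = (E * (G * (R + 1) ^ 2)) * l ^ R := by ring
    exact lt_of_mul_lt_mul_right h5 (Nat.zero_le _)
  have hRbig : R0 + 2 ≤ R := by
    by_contra h
    have h5 : R + 1 ≤ R0 + 3 := by omega
    have h6 : E * (G * (R + 1) ^ 2) ≤ E * (G * (R0 + 3) ^ 2) := by gcongr
    omega
  obtain ⟨t, σ, s0, q, K, κ, hκ, ht, hs0, hK, p1, p2, p3, p4, p5, p6, p7⟩ :=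
    hR0 R (by omega) l hl
  have hκR : 24 * κ ≤ R := by
    have h5 : 24 * κ ≤ 32 * κ * t ^ 2 * (G * (σ + 1) ^ 2) * E := by
      have h6 : 1 ≤ t ^ 2 := Nat.one_le_pow _ _ ht
      have h7 : 1 ≤ G * (σ + 1) ^ 2 := Nat.mul_pos (by omega) (by positivity)
      calc 24 * κ ≤ 32 * κ * 1 * 1 * 1 := by omega
        _ ≤ 32 * κ * t ^ 2 * (G * (σ + 1) ^ 2) * E := by gcongr; omega
    omega
  refine core (g := fun j => G * (j + 1) ^ 2) hl hLU hRBU hRec (by omega) ?_ ?_ ?_ hκR hκ ht hs0 hK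
    p1 p2 p3 p4 p5 p6 p7
  · intro W hW j hj
    exact hG c W l j lam hl (hLU.sub hW) hj
  · intro i j hij
    show G * (i + 1) ^ 2 ≤ G * (j + 1) ^ 2
    gcongr
  · calc R * l ^ R ≤ R' * l ^ R := Nat.mul_le_mul_right _ hRR'
      _ ≤ E * U.card := h1.le

end Pool.Agent.TH911.FR
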