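import Pool.Agent.TH780.FR.Defs

/-! MP_f298ee_co: the final induction (E). -/

namespace Pool.Agent.TH911.FR

open Finset Pool.Agent.TH780.FR

/-- no rainbow path to `x` with colours inside `D - e` has at least `|D| - 1 - q` edges -/
def Bad (c : ℕ → ℕ → ℕ) (V D : Finset ℕ) (q e x : ℕ) : Prop :=
  ∀ y I, P c V y x I → I ⊆ D.erase e → I.card + q + 2 ≤ D.card

/-- there is a rainbow path to `x` with at least `R - σ` edges avoiding `a` -/
def HasIn (c : ℕ → ℕ → ℕ) (V : Finset ℕ) (R σ a x : ℕ) : Prop :=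
  ∃ y I, P c V y x I ∧ a ∉ I ∧ R ≤ I.card + σ

open Classical in
/-- the choice of a good vertex -/
theorem choose_x {c : ℕ → ℕ → ℕ} {V X D : Finset ℕ} {R l n G Y σ q : ℕ}
    (hD : D.card ≤ R)
    (hXl : l ^ R ≤ Y ^ 3 * X.card) (hl : 0 < l)
    (hG : n ≤ G * (R + 1) ^ 2 * l ^ R)
    (hT : ∀ a ∈ D, (X.filter (fun x => ¬ HasIn c V R σ a x)).card * l ^ σ ≤ n)
    (hσ : 4 * R * (G * (R + 1) ^ 2) * Y ^ 3 < l ^ σ)
    (hbad : ∀ e ∈ D, (X.filter (fun x => Bad c V D q e x)).card * Y ^ 8 ≤ l ^ R) (hY : 0 < Y) :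
    ∃ x ∈ X, (∀ a ∈ D, HasIn c V R σ a x) ∧ (D.filter (fun e => Bad c V D q e x)).card * Y ^ 5 ≤ 2 * R := by
  have hXpos : 0 < X.card := by
    rcases Nat.eq_zero_or_pos X.card with h | h
    · rw [h] at hXl
      have : 0 < l ^ R := pow_pos hl R
      omega
    · exact h
  set S1 := X.filter (fun x => ∃ a ∈ D, ¬ HasIn c V R σ a x) with hS1
  have h1 : S1.card * l ^ σ ≤ D.card * n := by
    have h2 : S1.card ≤ ∑ a ∈ D, (X.filter (fun x => ¬ HasIn c V R σ a x)).card := by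
      have h3 : S1 ⊆ D.biUnion (fun a => X.filter (fun x => ¬ HasIn c V R σ a x)) := by
        intro x hx
        rw [hS1, Finset.mem_filter] at hx
        obtain ⟨hx, a, ha, h⟩ := hx
        rw [Finset.mem_biUnion]
        exact ⟨a, ha, by rw [Finset.mem_filter]; exact ⟨hx, h⟩⟩
      exact (Finset.card_le_card h3).trans Finset.card_biUnion_le
    calc S1.card * l ^ σ ≤ (∑ a ∈ D, (X.filter (fun x => ¬ HasIn c V R σ a x)).card) * l ^ σ :=
          Nat.mul_le_mul_right _ h2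
      _ = ∑ a ∈ D, (X.filter (fun x => ¬ HasIn c V R σ a x)).card * l ^ σ := Finset.sum_mul _ _ _
      _ ≤ ∑ a ∈ D, n := Finset.sum_le_sum hT
      _ = D.card * n := by simp
  have h4 : 4 * S1.card ≤ X.card := by
    have h5 : 4 * S1.card * l ^ σ ≤ (4 * R * (G * (R + 1) ^ 2) * Y ^ 3) * X.card := by
      calc 4 * S1.card * l ^ σ = 4 * (S1.card * l ^ σ) := by ring
        _ ≤ 4 * (D.card * n) := by omega
        _ ≤ 4 * (R * (G * (R + 1) ^ 2 * l ^ R)) := by gcongr
        _ ≤ 4 * (R * (G * (R + 1) ^ 2 * (Y ^ 3 * X.card))) := by gcongr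
        _ = (4 * R * (G * (R + 1) ^ 2) * Y ^ 3) * X.card := by ring
    have h6 : 4 * S1.card * l ^ σ ≤ X.card * l ^ σ := by
      calc 4 * S1.card * l ^ σ ≤ (4 * R * (G * (R + 1) ^ 2) * Y ^ 3) * X.card := h5
        _ ≤ l ^ σ * X.card := Nat.mul_le_mul_right _ hσ.le
        _ = X.card * l ^ σ := by ring
    exact Nat.le_of_mul_le_mul_right h6 (pow_pos hl σ)
  set X' := X \ S1 with hX'
  have hS1X : S1 ⊆ X := Finset.filter_subset _ _
  have h7 : X'.card = X.card - S1.card := Finset.card_sdiff_of_subset hS1X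
  have h8 : X.card ≤ 2 * X'.card := by omega
  have h9 : 0 < X'.card := by omega
  by_contra hcon
  push Not at hcon
  have h10 : ∀ x ∈ X', 2 * R < (D.filter (fun e => Bad c V D q e x)).card * Y ^ 5 := by
    intro x hx
    rw [hX', Finset.mem_sdiff] at hx
    refine hcon x hx.1 ?_
    intro a ha
    by_contra hno
    exact hx.2 (by rw [hS1, Finset.mem_filter]; exact ⟨hx.1, a, ha, hno⟩)
  have h11 : 2 * R * X'.card < (∑ x ∈ X', (D.filter (fun e => Bad c V D q e x)).card) * Y ^ 5 := by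
    rw [Finset.sum_mul]
    calc 2 * R * X'.card = ∑ x ∈ X', 2 * R := by simp [mul_comm]
      _ < ∑ x ∈ X', (D.filter (fun e => Bad c V D q e x)).card * Y ^ 5 :=
        Finset.sum_lt_sum_of_nonempty (Finset.card_pos.mp h9) h10
  have h12 : (∑ x ∈ X', (D.filter (fun e => Bad c V D q e x)).card) =
      ∑ e ∈ D, (X'.filter (fun x => Bad c V D q e x)).card := by
    simp_rw [Finset.card_filter]
    exact Finset.sum_comm
  have h13 : (∑ x ∈ X', (D.filter (fun e => Bad c V D q e x)).card) * Y ^ 8 ≤ D.card * l ^ R := by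
    rw [h12, Finset.sum_mul]
    calc ∑ e ∈ D, (X'.filter (fun x => Bad c V D q e x)).card * Y ^ 8 ≤ ∑ e ∈ D, l ^ R := by
          apply Finset.sum_le_sum
          intro e he
          refine le_trans (Nat.mul_le_mul_right _ (Finset.card_le_card ?_)) (hbad e he)
          exact Finset.filter_subset_filter _ Finset.sdiff_subset
      _ = D.card * l ^ R := by simp
  have h14 : (∑ x ∈ X', (D.filter (fun e => Bad c V D q e x)).card) * Y ^ 5 ≤ 2 * R * X'.card := by
    have h15 : ((∑ x ∈ X', (D.filter (fun e => Bad c V D q e x)).card) * Y ^ 5) * Y ^ 3 ≤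
        (2 * R * X'.card) * Y ^ 3 := by
      calc ((∑ x ∈ X', (D.filter (fun e => Bad c V D q e x)).card) * Y ^ 5) * Y ^ 3
          = (∑ x ∈ X', (D.filter (fun e => Bad c V D q e x)).card) * Y ^ 8 := by ring
        _ ≤ D.card * l ^ R := h13
        _ ≤ R * (Y ^ 3 * X.card) := by gcongr
        _ ≤ R * (Y ^ 3 * (2 * X'.card)) := by gcongr
        _ = (2 * R * X'.card) * Y ^ 3 := by ring
    exact Nat.le_of_mul_le_mul_right h15 (pow_pos hY 3)
  omega

/-- initial segments -/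
theorem first_block (T : Finset ℕ) : ∀ m, m ≤ T.card →
    ∃ W ⊆ T, W.card = m ∧ ∀ w ∈ W, ∀ t ∈ T \ W, w < t := by
  intro m
  induction m with
  | zero => intro _; exact ⟨∅, by simp, by simp, by simp⟩
  | succ m ih =>
    intro hm
    obtain ⟨W, hW, hc, hlt⟩ := ih (by omega)
    have hne : (T \ W).Nonempty := by
      rw [← Finset.card_pos, Finset.card_sdiff_of_subset hW]
      omega
    have hmem := (T \ W).min'_mem hne
    rw [Finset.mem_sdiff] at hmem
    refine ⟨insert ((T \ W).min' hne) W, ?_, ?_, ?_⟩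
    · intro z hz
      rw [Finset.mem_insert] at hz
      rcases hz with rfl | hz
      · exact hmem.1
      · exact hW hz
    · rw [Finset.card_insert_of_notMem hmem.2, hc]
    · intro w hw t ht
      rw [Finset.mem_sdiff, Finset.mem_insert, not_or] at ht
      have ht' : t ∈ T \ W := by rw [Finset.mem_sdiff]; exact ⟨ht.1, ht.2.2⟩
      rw [Finset.mem_insert] at hw
      rcases hw with rfl | hw
      · exact lt_of_le_of_ne ((T \ W).min'_le _ ht') (fun h => ht.2.1 h.symm)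
      · exact hlt w hw t ht'

open Classical in
/-- one step of (E): most vertices of a block get a colour outside `D` from a suitable vertex -/
theorem E_step {c : ℕ → ℕ → ℕ} {V : Finset ℕ} {R l G Y σ q E b s0 : ℕ}
    (hl : 0 < l) (hR : 0 < R) (hY : 0 < Y)
    (hG : V.card ≤ G * (R + 1) ^ 2 * l ^ R)
    (hT : ∀ a, (V.filter (fun x => ¬ HasIn c V R σ a x)).card * l ^ σ ≤ V.card)
    (hNA : ∀ x a, HasIn c V R σ a x →
      (V.filter (fun w => x < w ∧ c x w = a)).card ≤ G * (σ + 1) ^ 2 * l ^ R)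
    (hVD : ∀ s D, s ≤ s0 → D.card + s = R →
      (V.filter (fun w => ∃ y I, P c V y w I ∧ I ⊆ D ∧ D.card ≤ I.card + q)).card ≤
        G * (s + q + 1) ^ 2 * l ^ (R + q))
    (hbad : ∀ s X D, s ≤ s0 → X ⊆ V → D.card + s = R → (∀ x ∈ X, ∃ y, P c V y x D) →
      ∀ e ∈ D, (X.filter (fun x => Bad c V D q e x)).card * Y ^ 8 ≤ l ^ R)
    (hE : R * l ^ R ≤ E * V.card)
    (hb : V.card ≤ 8 * (Y + 1) * b)
    (hσ : 4 * R * (G * (R + 1) ^ 2) * Y ^ 3 < l ^ σ)
    (h1 : 48 * (Y + 1) * E * (G * (s0 + q + 1) ^ 2) * l ^ q ≤ R)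
    (h2 : 96 * (Y + 1) * E * (G * (σ + 1) ^ 2) ≤ Y ^ 5)
    (s : ℕ) (hs : s ≤ s0) (X W D : Finset ℕ) (hXV : X ⊆ V) (hWV : W ⊆ V)
    (hXW : ∀ x ∈ X, ∀ w ∈ W, x < w) (hWc : W.card = b) (hDs : D.card + s = R)
    (hPD : ∀ x ∈ X, ∃ y, P c V y x D) (hXl : l ^ R ≤ Y ^ 3 * X.card) :
    ∃ x ∈ X, 2 * b ≤ 3 * (W.filter (fun w => c x w ∉ D)).card := by
  have hlR : 0 < l ^ R := pow_pos hl R
  have hEV : 0 < E * V.card := lt_of_lt_of_le (Nat.mul_pos hR hlR) hE
  have hE0 : 0 < E := Nat.pos_of_mul_pos_right hEV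
  obtain ⟨x, hx, hin, hm⟩ := choose_x (c := c) (V := V) (X := X) (D := D) (R := R) (l := l)
    (n := V.card) (G := G) (Y := Y) (σ := σ) (q := q) (by omega) hXl hl hG
    (fun a _ => le_trans (Nat.mul_le_mul_right _ (Finset.card_le_card
      (Finset.filter_subset_filter _ hXV))) (hT a)) hσ (hbad s X D hs hXV hDs hPD) hY
  refine ⟨x, hx, ?_⟩
  set W1 := W.filter (fun w => c x w ∈ D ∧ ¬ Bad c V D q (c x w) x) with hW1
  set W2 := W.filter (fun w => c x w ∈ D ∧ Bad c V D q (c x w) x) with hW2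
  set W3 := W.filter (fun w => c x w ∉ D) with hW3
  have hcover : W.card ≤ W1.card + W2.card + W3.card := by
    have : W ⊆ (W1 ∪ W2) ∪ W3 := by
      intro w hw
      simp only [hW1, hW2, hW3, Finset.mem_union, Finset.mem_filter]
      by_cases ha : c x w ∈ D
      · by_cases hb' : Bad c V D q (c x w) x
        · exact Or.inl (Or.inr ⟨hw, ha, hb'⟩)
        · exact Or.inl (Or.inl ⟨hw, ha, hb'⟩)
      · exact Or.inr ⟨hw, ha⟩
    exact (Finset.card_le_card this).trans ((Finset.card_union_le _ _).trans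
      (Nat.add_le_add_right (Finset.card_union_le _ _) _))
  have hkey : 48 * (Y + 1) * E * (R * l ^ R) ≤ 48 * (Y + 1) * E * (8 * (Y + 1) * b * E) := by
    apply Nat.mul_le_mul_left
    calc R * l ^ R ≤ E * V.card := hE
      _ ≤ E * (8 * (Y + 1) * b) := Nat.mul_le_mul_left _ hb
      _ = 8 * (Y + 1) * b * E := by ring
  have hYE : 0 < 8 * (Y + 1) * E := by positivity
  have hc1 : 6 * W1.card ≤ b := by
    have h3 : W1.card ≤ G * (s + q + 1) ^ 2 * l ^ (R + q) := by
      refine le_trans (Finset.card_le_card ?_) (hVD s D hs hDs)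
      intro w hw
      rw [hW1, Finset.mem_filter] at hw
      obtain ⟨hwW, hwD, hnb⟩ := hw
      rw [Finset.mem_filter]
      refine ⟨hWV hwW, ?_⟩
      unfold Bad at hnb
      push Not at hnb
      obtain ⟨y, I, hp, hI, hlt⟩ := hnb
      have hni : c x w ∉ I := fun h => (Finset.notMem_erase _ _) (hI h)
      refine ⟨y, insert (c x w) I, P.snoc hp (hXW x hx w hwW) (hWV hwW) hni, ?_, ?_⟩
      · intro z hz
        rw [Finset.mem_insert] at hz
        rcases hz with rfl | hz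
        · exact hwD
        · exact Finset.mem_of_mem_erase (hI hz)
      · rw [Finset.card_insert_of_notMem hni]; omega
    have h4 : (48 * (Y + 1) * E) * W1.card ≤ R * l ^ R := by
      calc (48 * (Y + 1) * E) * W1.card
          ≤ (48 * (Y + 1) * E) * (G * (s + q + 1) ^ 2 * l ^ (R + q)) := Nat.mul_le_mul_left _ h3
        _ ≤ (48 * (Y + 1) * E) * (G * (s0 + q + 1) ^ 2 * l ^ (R + q)) := by gcongr
        _ = (48 * (Y + 1) * E * (G * (s0 + q + 1) ^ 2) * l ^ q) * l ^ R := by rw [pow_add]; ring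
        _ ≤ R * l ^ R := Nat.mul_le_mul_right _ h1
    have h5 : (6 * W1.card) * (8 * (Y + 1) * E) ≤ b * (8 * (Y + 1) * E) := by
      calc (6 * W1.card) * (8 * (Y + 1) * E) = (48 * (Y + 1) * E) * W1.card := by ring
        _ ≤ R * l ^ R := h4
        _ ≤ E * V.card := hE
        _ ≤ E * (8 * (Y + 1) * b) := Nat.mul_le_mul_left _ hb
        _ = b * (8 * (Y + 1) * E) := by ring
    exact Nat.le_of_mul_le_mul_right h5 hYE
  have hc2 : 6 * W2.card ≤ b := by
    have h3 : W2.card ≤ (D.filter (fun e => Bad c V D q e x)).card * (G * (σ + 1) ^ 2 * l ^ R) := by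
      have h4 : W2 ⊆ (D.filter (fun e => Bad c V D q e x)).biUnion
          (fun e => V.filter (fun w => x < w ∧ c x w = e)) := by
        intro w hw
        rw [hW2, Finset.mem_filter] at hw
        rw [Finset.mem_biUnion]
        refine ⟨c x w, ?_, ?_⟩
        · rw [Finset.mem_filter]; exact hw.2
        · rw [Finset.mem_filter]; exact ⟨hWV hw.1, hXW x hx w hw.1, rfl⟩
      refine (Finset.card_le_card h4).trans (Finset.card_biUnion_le_card_mul _ _ _ ?_)
      intro e he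
      rw [Finset.mem_filter] at he
      exact hNA x e (hin e he.1)
    have h4 : ((6 * W2.card) * (8 * (Y + 1) * E)) * Y ^ 5 ≤ (b * (8 * (Y + 1) * E)) * Y ^ 5 := by
      calc ((6 * W2.card) * (8 * (Y + 1) * E)) * Y ^ 5
          ≤ ((6 * ((D.filter (fun e => Bad c V D q e x)).card * (G * (σ + 1) ^ 2 * l ^ R))) *
            (8 * (Y + 1) * E)) * Y ^ 5 := by gcongr
        _ = ((D.filter (fun e => Bad c V D q e x)).card * Y ^ 5) *
            (48 * (Y + 1) * E * (G * (σ + 1) ^ 2)) * l ^ R := by ring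
        _ ≤ (2 * R) * (48 * (Y + 1) * E * (G * (σ + 1) ^ 2)) * l ^ R := by gcongr
        _ = (96 * (Y + 1) * E * (G * (σ + 1) ^ 2)) * (R * l ^ R) := by ring
        _ ≤ Y ^ 5 * (E * V.card) := Nat.mul_le_mul h2 hE
        _ ≤ Y ^ 5 * (E * (8 * (Y + 1) * b)) := by gcongr
        _ = (b * (8 * (Y + 1) * E)) * Y ^ 5 := by ring
    exact Nat.le_of_mul_le_mul_right (Nat.le_of_mul_le_mul_right h4 (pow_pos hY 5)) hYE
  omega

open Classical in
/-- the induction (E) -/
theorem E_main {c : ℕ → ℕ → ℕ} {V Z : Finset ℕ} {R l G Y σ q E b s0 : ℕ}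
    (hRB : RB c V R) (hl : 0 < l) (hR : 0 < R) (hY : 0 < Y) (hZV : Z ⊆ V)
    (hout : ∀ x ∈ Z, (OutC c V x).card ≤ R)
    (hG : V.card ≤ G * (R + 1) ^ 2 * l ^ R)
    (hT : ∀ a, (V.filter (fun x => ¬ HasIn c V R σ a x)).card * l ^ σ ≤ V.card)
    (hNA : ∀ x a, HasIn c V R σ a x →
      (V.filter (fun w => x < w ∧ c x w = a)).card ≤ G * (σ + 1) ^ 2 * l ^ R)
    (hVD : ∀ s D, s ≤ s0 → D.card + s = R →
      (V.filter (fun w => ∃ y I, P c V y w I ∧ I ⊆ D ∧ D.card ≤ I.card + q)).card ≤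
        G * (s + q + 1) ^ 2 * l ^ (R + q))
    (hbad : ∀ s X D, s ≤ s0 → X ⊆ V → D.card + s = R → (∀ x ∈ X, ∃ y, P c V y x D) →
      ∀ e ∈ D, (X.filter (fun x => Bad c V D q e x)).card * Y ^ 8 ≤ l ^ R)
    (hE : R * l ^ R ≤ E * V.card)
    (hb : V.card ≤ 8 * (Y + 1) * b)
    (hσ : 4 * R * (G * (R + 1) ^ 2) * Y ^ 3 < l ^ σ)
    (h1 : 48 * (Y + 1) * E * (G * (s0 + q + 1) ^ 2) * l ^ q ≤ R)
    (h2 : 96 * (Y + 1) * E * (G * (σ + 1) ^ 2) ≤ Y ^ 5)
    (h3 : 12 * E * (Y + 1) ≤ Y ^ 3) :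
    ∀ s, s ≤ s0 → ∀ X T D : Finset ℕ, X ⊆ Z → T ⊆ Z → (∀ x ∈ X, ∀ w ∈ T, x < w) →
      (s + 1) * b ≤ T.card → D.card + s = R → (∀ x ∈ X, ∃ y, P c V y x D) →
      l ^ R ≤ Y ^ 3 * X.card → False := by
  have hlR : 0 < l ^ R := pow_pos hl R
  have hEV : 0 < E * V.card := lt_of_lt_of_le (Nat.mul_pos hR hlR) hE
  have hE0 : 0 < E := Nat.pos_of_mul_pos_right hEV
  have hV0 : 0 < V.card := Nat.pos_of_mul_pos_left hEV
  have hb0 : 0 < b := by
    rcases Nat.eq_zero_or_pos b with h | h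
    · rw [h] at hb; omega
    · exact h
  intro s
  induction s with
  | zero =>
    intro hs X T D hXZ hTZ hXT hTc hDs hPD hXl
    obtain ⟨W, hWT, hWc, -⟩ := first_block T b (by omega)
    obtain ⟨x, hx, h4⟩ := E_step hl hR hY hG hT hNA hVD hbad hE hb hσ h1 h2 0 hs X W D
      (hXZ.trans hZV) (hWT.trans (hTZ.trans hZV)) (fun x hx w hw => hXT x hx w (hWT hw)) hWc hDs
      hPD hXl
    have h5 : 0 < (W.filter (fun w => c x w ∉ D)).card := by omega
    obtain ⟨w, hw⟩ := Finset.card_pos.mp h5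
    rw [Finset.mem_filter] at hw
    obtain ⟨y, hy⟩ := hPD x hx
    have h6 := hRB _ _ _ (P.snoc hy (hXT x hx w (hWT hw.1)) (hZV (hTZ (hWT hw.1))) hw.2)
    rw [Finset.card_insert_of_notMem hw.2] at h6
    omega
  | succ s ih =>
    intro hs X T D hXZ hTZ hXT hTc hDs hPD hXl
    obtain ⟨W, hWT, hWc, hlt⟩ := first_block T b (by nlinarith)
    obtain ⟨x, hx, h4⟩ := E_step hl hR hY hG hT hNA hVD hbad hE hb hσ h1 h2 (s + 1) hs X W D
      (hXZ.trans hZV) (hWT.trans (hTZ.trans hZV)) (fun x hx w hw => hXT x hx w (hWT hw)) hWc hDs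
      hPD hXl
    set W3 := W.filter (fun w => c x w ∉ D) with hW3
    have h5 : 0 < W3.card := by omega
    -- pigeonhole over the out-colours of `x`
    obtain ⟨a, haD, hpig⟩ : ∃ a, a ∉ D ∧ W3.card ≤ R * (W.filter (fun w => c x w = a)).card := by
      by_contra hcon
      push Not at hcon
      have h6 : W3 ⊆ ((OutC c V x) \ D).biUnion (fun a => W.filter (fun w => c x w = a)) := by
        intro w hw
        rw [hW3, Finset.mem_filter] at hw
        rw [Finset.mem_biUnion]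
        refine ⟨c x w, ?_, by rw [Finset.mem_filter]; exact ⟨hw.1, rfl⟩⟩
        rw [Finset.mem_sdiff, mem_OutC]
        exact ⟨⟨w, hZV (hTZ (hWT hw.1)), hXT x hx w (hWT hw.1), rfl⟩, hw.2⟩
      have h7 : R * W3.card ≤ ∑ a ∈ (OutC c V x) \ D, R * (W.filter (fun w => c x w = a)).card := by
        rw [← Finset.mul_sum]
        exact Nat.mul_le_mul_left _ ((Finset.card_le_card h6).trans Finset.card_biUnion_le)
      have hne : ((OutC c V x) \ D).Nonempty := by
        obtain ⟨w, hw⟩ := Finset.card_pos.mp h5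
        have := h6 hw
        rw [Finset.mem_biUnion] at this
        obtain ⟨a, ha, -⟩ := this
        exact ⟨a, ha⟩
      have h8 : ∑ a ∈ (OutC c V x) \ D, R * (W.filter (fun w => c x w = a)).card <
          ∑ a ∈ (OutC c V x) \ D, W3.card := by
        apply Finset.sum_lt_sum_of_nonempty hne
        intro a ha
        rw [Finset.mem_sdiff] at ha
        exact hcon a ha.2
      have h9 : ∑ a ∈ (OutC c V x) \ D, W3.card ≤ R * W3.card := by
        rw [Finset.sum_const, smul_eq_mul]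
        apply Nat.mul_le_mul_right
        exact (Finset.card_le_card Finset.sdiff_subset).trans (hout x (hXZ hx))
      omega
    set N := W.filter (fun w => c x w = a) with hN
    have hNW : N ⊆ W := Finset.filter_subset _ _
    obtain ⟨y, hy⟩ := hPD x hx
    refine ih (by omega) N (T \ W) (insert a D) ((hNW.trans hWT).trans hTZ)
      (Finset.sdiff_subset.trans hTZ) (fun u hu w hw => hlt u (hNW hu) w hw) ?_ ?_ ?_ ?_
    · rw [Finset.card_sdiff_of_subset hWT, hWc]
      have : (s + 1 + 1) * b = (s + 1) * b + b := by ring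
      omega
    · rw [Finset.card_insert_of_notMem haD]; omega
    · intro w hw
      rw [hN, Finset.mem_filter] at hw
      have h6 := P.snoc hy (hXT x hx w (hWT hw.1)) (hZV (hTZ (hWT hw.1))) (by rw [hw.2]; exact haD)
      rw [hw.2] at h6
      exact ⟨y, h6⟩
    · have h6 : R * l ^ R ≤ R * (Y ^ 3 * N.card) := by
        calc R * l ^ R ≤ E * V.card := hE
          _ ≤ E * (8 * (Y + 1) * b) := Nat.mul_le_mul_left _ hb
          _ = (4 * (Y + 1) * E) * (2 * b) := by ring
          _ ≤ (4 * (Y + 1) * E) * (3 * W3.card) := Nat.mul_le_mul_left _ h4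
          _ ≤ (4 * (Y + 1) * E) * (3 * (R * N.card)) := by gcongr
          _ = (12 * E * (Y + 1)) * (R * N.card) := by ring
          _ ≤ Y ^ 3 * (R * N.card) := Nat.mul_le_mul_right _ h3
          _ = R * (Y ^ 3 * N.card) := by ring
      exact Nat.le_of_mul_le_mul_left h6 hR

end Pool.Agent.TH911.FR
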