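import Pool.Agent.TH226.FR.C1
import Pool.Agent.TH226.FR.D
import Pool.Agent.TH226.FR.Stage
import Pool.Agent.TH195.FR.C2
import Pool.Agent.TH911.FR.Main

/-! MP_f298ee_co: J17, the core (assembly), and J18. -/

namespace Pool.Agent.TH911.FR

open Finset Pool.Agent.TH780.FR

variable {c : ℕ → ℕ → ℕ} {V : Finset ℕ} {l R : ℕ} {lam : ℕ → ℕ → ℕ}

/-- both regimes of the bound of the bad sets -/
theorem bad_bound (hl : 3 ≤ l) (hL : Lev c V l lam) (hR : RB c V R) (h2R : 2 ≤ R)
    {E t s0 q K κ : ℕ} (hn : R * l ^ R ≤ E * V.card) (hE : 0 < E) (hκ : 0 < κ) (ht0 : 1 ≤ t)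
    (h7 : (s0 = 1 ∧ q = 0 ∧ 4 * κ * t * K * E * (Nat.log 2 R + 1) ≤ l) ∨
      4 * κ * t * K * E * s0 ^ 2 * l ^ (s0 - 1) ≤ 2 ^ (q + 1))
    {s : ℕ} (hs : s < s0) {D X : Finset ℕ} (hXV : X ⊆ V) (hDs : D.card + s = R)
    (hXD : ∀ x ∈ X, ∃ u, P c V u x D) (hXn : V.card ≤ 4 * κ * t * R * X.card) :
    ∀ a ∈ D, ∀ B ⊆ X,
      (∀ x ∈ B, ∀ u I, P c V u x I → I ⊆ D.erase a → I.card + 2 + q ≤ D.card) →
      B.card * K ≤ X.card := by
  intro a ha B hB hbad
  have hR0 : 0 < R := by omega
  have hlpos : ∀ k, 0 < l ^ k := fun k => pow_pos (by omega) k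
  have h4 : 0 < 4 * κ * t * E := by positivity
  -- `l^R ≤ 4 κ t E |X|`
  have hX : l ^ R ≤ X.card * (4 * κ * t * E) := by
    have h1 : R * l ^ R ≤ R * (X.card * (4 * κ * t * E)) := by
      calc R * l ^ R ≤ E * V.card := hn
        _ ≤ E * (4 * κ * t * R * X.card) := Nat.mul_le_mul_left _ hXn
        _ = R * (X.card * (4 * κ * t * E)) := by ring
    exact Nat.le_of_mul_le_mul_left h1 hR0
  rcases h7 with ⟨hs0, hq, h7⟩ | h7
  · subst hs0
    subst hq
    have hs' : s = 0 := by omega
    subst hs'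
    have hDR : D.card = R := by omega
    have h1 := Pool.Agent.TH226.FR.bad_large' (c := c) (B := B) (by omega) hL hR (hB.trans hXV) h2R
      ha hDR (fun x hx => hXD x (hB hx)) (by
        intro x hx u hp
        have h2 := hbad x hx u _ hp (subset_refl _)
        have h3 : (D.erase a).card = D.card - 1 := Finset.card_erase_of_mem ha
        omega)
    have h2 : harmonic (R - 1) ≤ ((Nat.log 2 R + 1 : ℕ) : ℚ) := by
      apply Pool.Agent.TH226.FR.harmonic_le_of_lt
      have := Nat.lt_pow_succ_log_self (b := 2) (by norm_num) R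
      have h3 : Nat.log 2 R + 1 = (Nat.log 2 R).succ := rfl
      rw [h3]
      omega
    have h3 : B.card ≤ (Nat.log 2 R + 1) * l ^ (R - 1) := by
      have h4 : (B.card : ℚ) ≤ ((Nat.log 2 R + 1 : ℕ) : ℚ) * (l : ℚ) ^ (R - 1) :=
        h1.trans (mul_le_mul_of_nonneg_right h2 (by positivity))
      exact_mod_cast h4
    have h5 : (B.card * K) * (4 * κ * t * E) ≤ X.card * (4 * κ * t * E) := by
      calc (B.card * K) * (4 * κ * t * E)
          ≤ (((Nat.log 2 R + 1) * l ^ (R - 1)) * K) * (4 * κ * t * E) := by gcongr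
        _ = (4 * κ * t * K * E * (Nat.log 2 R + 1)) * l ^ (R - 1) := by ring
        _ ≤ l * l ^ (R - 1) := Nat.mul_le_mul_right _ h7
        _ = l ^ R := by
          rw [← pow_succ']
          congr 1
          omega
        _ ≤ X.card * (4 * κ * t * E) := hX
    exact Nat.le_of_mul_le_mul_right h5 h4
  · have h1 := Pool.Agent.TH226.FR.bad_small' (c := c) (B := B) (q := q) (by omega) hL hR
      (hB.trans hXV) ha hDs (fun x hx => hXD x (hB hx)) hbad
    have h5 : ((B.card * K) * (4 * κ * t * E)) * 2 ^ (q + 1) ≤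
        (X.card * (4 * κ * t * E)) * 2 ^ (q + 1) := by
      calc ((B.card * K) * (4 * κ * t * E)) * 2 ^ (q + 1)
          = (4 * κ * t * K * E) * (B.card * 2 ^ (q + 1)) := by ring
        _ ≤ (4 * κ * t * K * E) * ((s + 1) ^ 2 * l ^ (R + s)) := Nat.mul_le_mul_left _ h1
        _ ≤ (4 * κ * t * K * E) * (s0 ^ 2 * l ^ (R + (s0 - 1))) := by
          apply Nat.mul_le_mul_left
          apply Nat.mul_le_mul
          · exact Nat.pow_le_pow_left (by omega) 2
          · exact Nat.pow_le_pow_right (by omega) (by omega)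
        _ = (4 * κ * t * K * E * s0 ^ 2 * l ^ (s0 - 1)) * l ^ R := by rw [pow_add]; ring
        _ ≤ 2 ^ (q + 1) * l ^ R := Nat.mul_le_mul_right _ h7
        _ ≤ 2 ^ (q + 1) * (X.card * (4 * κ * t * E)) := Nat.mul_le_mul_left _ hX
        _ = (X.card * (4 * κ * t * E)) * 2 ^ (q + 1) := by ring
    exact Nat.le_of_mul_le_mul_right (Nat.le_of_mul_le_mul_right h5 (by positivity)) h4

/-- J17 core (assembly) -/
theorem core (hl : 3 ≤ l) (hL : Lev c V l lam) (hR : RB c V R) (hRec : Rec c V l R) (h2R : 2 ≤ R)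
    {g : ℕ → ℕ} (hg : ∀ U ⊆ V, ∀ j, RB c U j → U.card ≤ g j * l ^ j) (gm : Monotone g)
    {E t σ s0 q K κ : ℕ} (hn : R * l ^ R ≤ E * V.card) (hnk : 24 * κ ≤ R)
    (hκ : κ = 6 * (s0 + 2)) (ht0 : 1 ≤ t) (hs0 : 1 ≤ s0) (hK : 0 < K)
    (h1 : 2 * κ * R < l ^ t)
    (h2 : 32 * κ * t * R ^ 2 ≤ l ^ σ)
    (h3 : 32 * κ * t ^ 2 * g σ * E ≤ R)
    (h4 : 256 * κ ^ 2 * t ^ 3 * g σ * E ≤ l ^ s0)
    (h5 : 4 * κ * g (s0 + q) * l ^ q * E ≤ R)
    (h6 : 16 * κ * g σ * E ≤ K)
    (h7 : (s0 = 1 ∧ q = 0 ∧ 4 * κ * t * K * E * (Nat.log 2 R + 1) ≤ l) ∨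
      4 * κ * t * K * E * s0 ^ 2 * l ^ (s0 - 1) ≤ 2 ^ (q + 1)) : False := by
  classical
  have hR0 : 0 < R := by omega
  have hlpos : ∀ k, 0 < l ^ k := fun k => pow_pos (by omega) k
  have hEV : 0 < E * V.card := lt_of_lt_of_le (Nat.mul_pos hR0 (hlpos R)) hn
  have hE : 0 < E := Nat.pos_of_mul_pos_right hEV
  have hV0 : 0 < V.card := Nat.pos_of_mul_pos_left hEV
  have hκ0 : 0 < κ := by omega
  -- a singleton
  obtain ⟨v0, hv0⟩ := Finset.card_pos.mp hV0
  have hsing : RB c {v0} 0 := by
    intro x y I hp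
    have h8 : I ⊆ ∅ := hp.subset_of_col (by
      intro u hu v hv huv
      rw [Finset.mem_singleton] at hu hv
      omega)
    simpa using Finset.card_le_card h8
  have hVR : l ^ R ≤ V.card := by
    have := hRec {v0} (by simpa using hv0) 0 (Nat.zero_le _) hsing
    simpa using this
  have hg1 : ∀ j, 1 ≤ g j := by
    intro j
    have h8 := hg {v0} (by simpa using hv0) 0 hsing
    simp only [Finset.card_singleton, pow_zero, mul_one] at h8
    exact h8.trans (gm (Nat.zero_le j))
  have hVκ : κ ≤ V.card := by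
    have h8 : R < l ^ R := Nat.lt_pow_self (by omega)
    omega
  -- the set `Z`
  set Z := Hin c V R ∩ Hout c V R with hZ
  have hZin : Z ⊆ Hin c V R := Finset.inter_subset_left
  have hZout : Z ⊆ Hout c V R := Finset.inter_subset_right
  have hZV : Z ⊆ V := hZin.trans Hin_sub
  have hZcard : V.card ≤ 3 * Z.card := by
    have e1 : 3 * (V \ Hin c V R).card ≤ V.card := by
      calc 3 * (V \ Hin c V R).card ≤ l * (V \ Hin c V R).card := Nat.mul_le_mul_right _ hl
        _ = (V \ Hin c V R).card * l := by ring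
        _ ≤ V.card := card_not_Hin hR (by omega) hRec
    have e2 : 3 * (V \ Hout c V R).card ≤ V.card := by
      calc 3 * (V \ Hout c V R).card ≤ l * (V \ Hout c V R).card := Nat.mul_le_mul_right _ hl
        _ = (V \ Hout c V R).card * l := by ring
        _ ≤ V.card := card_not_Hout hR (by omega) hRec
    have e3 : V ⊆ Z ∪ ((V \ Hin c V R) ∪ (V \ Hout c V R)) := by
      intro x hx
      by_cases a1 : x ∈ Hin c V R
      · by_cases a2 : x ∈ Hout c V R
        · exact Finset.mem_union_left _ (Finset.mem_inter.mpr ⟨a1, a2⟩)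
        · exact Finset.mem_union_right _ (Finset.mem_union_right _ (Finset.mem_sdiff.mpr ⟨hx, a2⟩))
      · exact Finset.mem_union_right _ (Finset.mem_union_left _ (Finset.mem_sdiff.mpr ⟨hx, a1⟩))
    have e4 := (Finset.card_le_card e3).trans ((Finset.card_union_le _ _).trans
      (Nat.add_le_add_left (Finset.card_union_le _ _) _))
    omega
  -- blocks
  obtain ⟨b, hbZ, hbc, hblt⟩ := Pool.Agent.TH226.FR.exists_blocks' Z (s0 + 2) (by omega)
  have hbκ : ∀ i < s0 + 2, V.card ≤ κ * (b i).card := by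
    intro i hi
    rw [hbc i hi, hκ]
    have e1 : Z.card < (s0 + 2) * (Z.card / (s0 + 2)) + (s0 + 2) := by
      have := Nat.lt_mul_div_succ Z.card (show 0 < s0 + 2 by omega)
      calc Z.card < (s0 + 2) * (Z.card / (s0 + 2) + 1) := this
        _ = (s0 + 2) * (Z.card / (s0 + 2)) + (s0 + 2) := by ring
    have e2 : 6 * (s0 + 2) * (Z.card / (s0 + 2)) = 6 * ((s0 + 2) * (Z.card / (s0 + 2))) := by ring
    rw [e2]
    omega
  have hbpos : ∀ i < s0 + 2, 0 < (b i).card := by
    intro i hi
    have := hbκ i hi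
    rcases Nat.eq_zero_or_pos (b i).card with h | h
    · rw [h] at this; omega
    · exact h
  -- the stages
  have hstage : ∀ s, s < s0 → ∀ i X D, i + s + 1 < s0 + 2 → X ⊆ b i → D.card + s = R →
      (∀ x ∈ X, ∃ u, P c V u x D) → V.card ≤ 4 * κ * t * R * X.card → False := by
    intro s
    induction s with
    | zero =>
      intro hs i X D hi hXb hDs hXD hXn
      have hXZ : X ⊆ Z := hXb.trans (hbZ i (by omega))
      have hXpos : 0 < X.card := by
        rcases Nat.eq_zero_or_pos X.card with h | h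
        · rw [h] at hXn; omega
        · exact h
      have hWZ := hbZ (i + 1) (by omega)
      have hst := Pool.Agent.TH226.FR.stage' (c := c) (V := V) (D := D) (X := X) (W := b (i + 1))
        (s := 0) (q := q) (σ := σ) (K := K) (by omega) hL hR hRec hg gm (hXZ.trans hZin)
        (Finset.card_pos.mp hXpos) (hWZ.trans hZV) (Finset.card_pos.mp (hbpos _ (by omega)))
        (fun x hx w hw => hblt i (i + 1) (by omega) (by omega) x (hXb hx) w hw) hDs hXD
        (bad_bound hl hL hR h2R hn hE hκ0 ht0 h7 hs (hXZ.trans hZV) hDs hXD hXn) ?_ ?_ ?_ hK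
      · exact absurd hst.1 (lt_irrefl 0)
      · calc 4 * R * V.card ≤ 4 * R * (4 * κ * t * R * X.card) := Nat.mul_le_mul_left _ hXn
          _ = (16 * κ * t * R ^ 2) * X.card := by ring
          _ ≤ (32 * κ * t * R ^ 2) * X.card := by gcongr; norm_num
          _ ≤ l ^ σ * X.card := Nat.mul_le_mul_right _ h2
      · have hW := hbκ (i + 1) (by omega)
        have e1 : (4 * g (0 + q) * l ^ (R + q)) * (κ * E) ≤ (b (i + 1)).card * (κ * E) := by
          calc (4 * g (0 + q) * l ^ (R + q)) * (κ * E)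
              ≤ (4 * g (s0 + q) * l ^ (R + q)) * (κ * E) := by
                gcongr
                exact gm (by omega)
            _ = (4 * κ * g (s0 + q) * l ^ q * E) * l ^ R := by rw [pow_add]; ring
            _ ≤ R * l ^ R := Nat.mul_le_mul_right _ h5
            _ ≤ E * V.card := hn
            _ ≤ E * (κ * (b (i + 1)).card) := Nat.mul_le_mul_left _ hW
            _ = (b (i + 1)).card * (κ * E) := by ring
        exact Nat.le_of_mul_le_mul_right e1 (by positivity)
      · have hW := hbκ (i + 1) (by omega)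
        have e1 : (16 * R * g σ * l ^ R) * (κ * E) ≤ (K * (b (i + 1)).card) * (κ * E) := by
          calc (16 * R * g σ * l ^ R) * (κ * E) = (16 * κ * g σ * E) * (R * l ^ R) := by ring
            _ ≤ K * (E * V.card) := Nat.mul_le_mul h6 hn
            _ ≤ K * (E * (κ * (b (i + 1)).card)) := by gcongr
            _ = (K * (b (i + 1)).card) * (κ * E) := by ring
        exact Nat.le_of_mul_le_mul_right e1 (by positivity)
    | succ s ih =>
      intro hs i X D hi hXb hDs hXD hXn
      have hXZ : X ⊆ Z := hXb.trans (hbZ i (by omega))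
      have hXpos : 0 < X.card := by
        rcases Nat.eq_zero_or_pos X.card with h | h
        · rw [h] at hXn; omega
        · exact h
      have hWZ := hbZ (i + 1) (by omega)
      have hW := hbκ (i + 1) (by omega)
      have hst := Pool.Agent.TH226.FR.stage' (c := c) (V := V) (D := D) (X := X) (W := b (i + 1))
        (s := s + 1) (q := q) (σ := σ) (K := K) (by omega) hL hR hRec hg gm (hXZ.trans hZin)
        (Finset.card_pos.mp hXpos) (hWZ.trans hZV) (Finset.card_pos.mp (hbpos _ (by omega)))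
        (fun x hx w hw => hblt i (i + 1) (by omega) (by omega) x (hXb hx) w hw) hDs hXD
        (bad_bound hl hL hR h2R hn hE hκ0 ht0 h7 hs (hXZ.trans hZV) hDs hXD hXn) ?_ ?_ ?_ hK
      · obtain ⟨-, a, haD, X', hX'W, hX'c, hX'P⟩ := hst
        refine ih (by omega) (i + 1) X' (insert a D) (by omega) hX'W ?_ hX'P ?_
        · rw [Finset.card_insert_of_notMem haD]; omega
        · calc V.card ≤ κ * (b (i + 1)).card := hW
            _ ≤ κ * (2 * R * X'.card) := Nat.mul_le_mul_left _ hX'c
            _ = (2 * κ * 1 * R) * X'.card := by ring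
            _ ≤ (4 * κ * t * R) * X'.card := by gcongr; norm_num
      · calc 4 * R * V.card ≤ 4 * R * (4 * κ * t * R * X.card) := Nat.mul_le_mul_left _ hXn
          _ = (16 * κ * t * R ^ 2) * X.card := by ring
          _ ≤ (32 * κ * t * R ^ 2) * X.card := by gcongr; norm_num
          _ ≤ l ^ σ * X.card := Nat.mul_le_mul_right _ h2
      · have e1 : (4 * g (s + 1 + q) * l ^ (R + q)) * (κ * E) ≤ (b (i + 1)).card * (κ * E) := by
          calc (4 * g (s + 1 + q) * l ^ (R + q)) * (κ * E)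
              ≤ (4 * g (s0 + q) * l ^ (R + q)) * (κ * E) := by
                gcongr
                exact gm (by omega)
            _ = (4 * κ * g (s0 + q) * l ^ q * E) * l ^ R := by rw [pow_add]; ring
            _ ≤ R * l ^ R := Nat.mul_le_mul_right _ h5
            _ ≤ E * V.card := hn
            _ ≤ E * (κ * (b (i + 1)).card) := Nat.mul_le_mul_left _ hW
            _ = (b (i + 1)).card * (κ * E) := by ring
        exact Nat.le_of_mul_le_mul_right e1 (by positivity)
      · have e1 : (16 * R * g σ * l ^ R) * (κ * E) ≤ (K * (b (i + 1)).card) * (κ * E) := by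
          calc (16 * R * g σ * l ^ R) * (κ * E) = (16 * κ * g σ * E) * (R * l ^ R) := by ring
            _ ≤ K * (E * V.card) := Nat.mul_le_mul h6 hn
            _ ≤ K * (E * (κ * (b (i + 1)).card)) := by gcongr
            _ = (K * (b (i + 1)).card) * (κ * E) := by ring
        exact Nat.le_of_mul_le_mul_right e1 (by positivity)
  -- few colours
  have hb0 := hbZ 0 (by omega)
  have hb1 := hbZ 1 (by omega)
  obtain ⟨C, hC, V', hV'b, hV'c, hrare⟩ := few_colours (c := c) (V := V) (A := b 0) (V2 := b 1)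
    (t := t) (κ := κ) (by omega) hL hR hRec (hb0.trans hZV)
    (Finset.card_pos.mp (hbpos 0 (by omega)))
    (by
      intro y hy
      rw [Col_eq]
      have e1 := inC_card hR (hZout (hb0 hy))
      have e2 := outC_card hR (hZin (hb0 hy))
      exact (Finset.card_union_le _ _).trans (by omega))
    (hb1.trans hZout) (fun y hy w hw => hblt 0 1 (by omega) (by omega) y hy w hw)
    (hbκ 0 (by omega)) h1 ht0
  have hV'Z : V' ⊆ Z := hV'b.trans hb1
  have hV'n : V.card ≤ (κ * t) * V'.card := by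
    calc V.card ≤ κ * (b 1).card := hbκ 1 (by omega)
      _ ≤ κ * (t * V'.card) := Nat.mul_le_mul_left _ hV'c
      _ = (κ * t) * V'.card := by ring
  have hκtE : 0 < κ * t * E := by positivity
  have hV'2 : 32 * t * g σ * l ^ R ≤ V'.card := by
    have e1 : (32 * t * g σ * l ^ R) * (κ * t * E) ≤ V'.card * (κ * t * E) := by
      calc (32 * t * g σ * l ^ R) * (κ * t * E) = (32 * κ * t ^ 2 * g σ * E) * l ^ R := by ring
        _ ≤ R * l ^ R := Nat.mul_le_mul_right _ h3
        _ ≤ E * V.card := hn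
        _ ≤ E * ((κ * t) * V'.card) := Nat.mul_le_mul_left _ hV'n
        _ = V'.card * (κ * t * E) := by ring
    exact Nat.le_of_mul_le_mul_right e1 hκtE
  have hV'4 : 4 ≤ V'.card := by
    refine le_trans ?_ hV'2
    have e1 := hg1 σ
    have e2 := hlpos R
    calc 4 ≤ 32 * 1 * 1 * 1 := by norm_num
      _ ≤ 32 * t * g σ * l ^ R := by gcongr; exact e2
  obtain ⟨s, hs, D, X, hDs, hXV', hXc, hXD⟩ := find_X (c := c) (V := V) (V' := V') (C := C) (t := t)
    (κ := κ * t) (σ := σ) (s0 := s0) (by omega) hL hR hRec hg gm (hV'Z.trans hZin)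
    (hV'Z.trans hZout) hC hrare hV'n hV'4
    (by
      calc 32 * (κ * t) * R = (32 * κ * t * R) * 1 := by ring
        _ ≤ (32 * κ * t * R) * R := by gcongr; omega
        _ = 32 * κ * t * R ^ 2 := by ring
        _ ≤ l ^ σ := h2)
    hV'2
    (by
      have e1 : (256 * t * R * (κ * t) * g σ * l ^ R) * (κ * t * E) ≤
          (l ^ s0 * V'.card) * (κ * t * E) := by
        calc (256 * t * R * (κ * t) * g σ * l ^ R) * (κ * t * E)
            = (256 * κ ^ 2 * t ^ 3 * g σ * E) * (R * l ^ R) := by ring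
          _ ≤ l ^ s0 * (E * V.card) := Nat.mul_le_mul h4 hn
          _ ≤ l ^ s0 * (E * ((κ * t) * V'.card)) := by gcongr
          _ = (l ^ s0 * V'.card) * (κ * t * E) := by ring
      exact Nat.le_of_mul_le_mul_right e1 hκtE)
  refine hstage s hs 1 X D (by omega) (hXV'.trans hV'b) hDs hXD ?_
  calc V.card ≤ (κ * t) * V'.card := hV'n
    _ ≤ (κ * t) * (4 * R * X.card) := Nat.mul_le_mul_left _ hXc
    _ = 4 * κ * t * R * X.card := by ring

/-- J18 final quantitative form -/
theorem main_bound (E : ℕ) : ∃ K0 : ℕ, ∀ R ≥ K0, ∀ l ≥ 3, ∀ (c : ℕ → ℕ → ℕ) (V : Finset ℕ)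
    (lam : ℕ → ℕ → ℕ), Lev c V l lam → RB c V R → E * V.card ≤ R * l ^ R :=
  main_bound_of (fun hl _ hR => exists_record hl hR) ap_bound
    (fun hl hL hR hRec h2R _ hg gm _ _ _ _ _ _ _ => core hl hL hR hRec h2R hg gm) E

end Pool.Agent.TH911.FR
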