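import Mathlib

/-! MP_f298ee_co: the numeric wrap. -/

namespace Pool.Agent.TH911.FR

open Filter Topology

theorem wrap (F : ℕ → ℕ → ℕ) (G : ℕ)
    (hAP : ∀ l ≥ 3, ∀ k ≥ 1, F l k ≤ G * k ^ 2 * l ^ (k - 1))
    (h3 : ∀ E : ℕ, ∃ K0 : ℕ, ∀ k ≥ K0, ∀ l ≥ 3, E * F l k ≤ k * l ^ (k - 1))
    (h12 : ∀ l, 1 ≤ l → l ≤ 2 → ∀ k ≥ 1, F l k ≤ l ^ (k - 1)) :
    ∃ φ : ℕ → ℝ, Tendsto (fun k : ℕ => φ k / k) atTop (𝓝 0) ∧
      ∀ l k : ℕ, 1 ≤ l → 1 ≤ k → (F l k : ℝ) ≤ φ k * (l : ℝ) ^ (k - 1) := by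
  set φ : ℕ → ℝ := fun k => ⨆ l : ℕ, (F (l + 1) k : ℝ) / ((l : ℝ) + 1) ^ (k - 1) with hφ
  have hpos : ∀ l k : ℕ, (0 : ℝ) < ((l : ℝ) + 1) ^ (k - 1) := fun l k => by positivity
  have hbdd : ∀ k : ℕ, 1 ≤ k →
      BddAbove (Set.range (fun l : ℕ => (F (l + 1) k : ℝ) / ((l : ℝ) + 1) ^ (k - 1))) := by
    intro k hk
    refine ⟨(G : ℝ) * k ^ 2 + 1, ?_⟩
    rintro _ ⟨l, rfl⟩
    simp only
    rw [div_le_iff₀ (hpos l k)]
    rcases Nat.lt_or_ge (l + 1) 3 with h | h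
    · have h1 := h12 (l + 1) (by omega) (by omega) k hk
      have h2 : (F (l + 1) k : ℝ) ≤ ((l : ℝ) + 1) ^ (k - 1) := by exact_mod_cast h1
      have h4 : (0 : ℝ) ≤ (G : ℝ) * k ^ 2 := by positivity
      nlinarith [hpos l k]
    · have h1 := hAP (l + 1) h k hk
      have h2 : (F (l + 1) k : ℝ) ≤ (G : ℝ) * k ^ 2 * ((l : ℝ) + 1) ^ (k - 1) := by exact_mod_cast h1
      nlinarith [hpos l k]
  refine ⟨φ, ?_, ?_⟩
  · rw [Metric.tendsto_atTop]
    intro ε hε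
    obtain ⟨E, hE⟩ := exists_nat_gt (1 / ε)
    have hE0 : 0 < (E : ℝ) := lt_trans (by positivity) hE
    have hE1 : 1 / (E : ℝ) < ε := by
      rw [div_lt_iff₀ hE0]
      rw [div_lt_iff₀ hε] at hE
      linarith
    obtain ⟨K0, hK0⟩ := h3 E
    refine ⟨max (max K0 E) 1, fun k hk => ?_⟩
    have hk1 : 1 ≤ k := le_trans (le_max_right _ _) hk
    have hkE : E ≤ k := le_trans (le_trans (le_max_right _ _) (le_max_left _ _)) hk
    have hkK : K0 ≤ k := le_trans (le_trans (le_max_left _ _) (le_max_left _ _)) hk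
    have hkpos : (0 : ℝ) < k := by exact_mod_cast hk1
    have hle : φ k ≤ k / E := by
      apply ciSup_le
      intro l
      rw [div_le_iff₀ (hpos l k)]
      rcases Nat.lt_or_ge (l + 1) 3 with h | h
      · have h1 := h12 (l + 1) (by omega) (by omega) k hk1
        have h2 : (F (l + 1) k : ℝ) ≤ ((l : ℝ) + 1) ^ (k - 1) := by exact_mod_cast h1
        have h4 : (1 : ℝ) ≤ k / E := by
          rw [le_div_iff₀ hE0]
          simpa using (by exact_mod_cast hkE : (E : ℝ) ≤ k)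
        nlinarith [hpos l k]
      · have h1 := hK0 k hkK (l + 1) h
        have h2 : (E : ℝ) * F (l + 1) k ≤ k * ((l : ℝ) + 1) ^ (k - 1) := by exact_mod_cast h1
        rw [div_mul_eq_mul_div, le_div_iff₀ hE0]
        linarith
    have hge : 0 ≤ φ k := by
      have h1 := le_ciSup (hbdd k hk1) 0
      refine le_trans ?_ h1
      positivity
    rw [Real.dist_eq, sub_zero, abs_of_nonneg (by positivity)]
    calc φ k / k ≤ (k / E) / k := by gcongr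
      _ = 1 / E := by field_simp
      _ < ε := hE1
  · intro l k hl hk
    obtain ⟨m, rfl⟩ : ∃ m, l = m + 1 := ⟨l - 1, by omega⟩
    have h1 := le_ciSup (hbdd k hk) m
    rw [div_le_iff₀ (hpos m k)] at h1
    push_cast
    exact h1

end Pool.Agent.TH911.FR
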